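import Pool.Agent.Y998.LQ.Defs4

/-!
# One formula for all dimensions
-/

set_option autoImplicit false

namespace Pool.Agent.Y998.LQ

open Finset Equiv Filter Topology Pool.Agent.Y998.ST Pool.Agent.Y998.CN Pool.Agent.Y998.LP

theorem prob_le_one {V : Type} [Fintype V] [DecidableEq V] {J : V → V → ℝ}
    (hJ : ∀ x y, 0 ≤ J x y) {t : ℝ} (ht : 0 ≤ t) (v : V) (K : ℕ) :
    stirExp J t (fun g => if cycleLen g v ≤ K then 1 else 0) ≤ 1 := by
  unfold stirExp
  refine le_of_le_of_eq ?_ (law_sum J t)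
  refine Finset.sum_le_sum fun g _ => ?_
  refine mul_le_of_le_one_right (law_nonneg hJ ht g) ?_
  beta_reduce
  split_ifs <;> norm_num

theorem t_uni (hTYP : S_TYP) (hLONG : S_LONG) (d : ℕ) (hd : 1 ≤ d) : ∃ C : ℝ, 0 < C ∧
    ∀ (L : ℕ) [NeZero L], 3 ≤ L → ∀ t : ℝ, 0 < t → ∀ (v : Fin d → ZMod L) (K : ℕ),
      stirExp (nnRate d L) t (fun g => if cycleLen g v ≤ K then 1 else 0) ≤
        C * ((K : ℝ) / min (t ^ max ((d : ℝ) / 2) ((d : ℝ) - 1)) ((L : ℝ) ^ d)) ^
          (1 / ((d : ℝ) + 3)) := by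
  rcases Nat.lt_or_ge d 3 with h3 | h3
  · obtain ⟨C, hC, h⟩ := hTYP d hd
    refine ⟨C + 1, by positivity, fun L _ hL t ht v K => ?_⟩
    have hd2 : (d : ℝ) ≤ 2 := by exact_mod_cast (show d ≤ 2 by omega)
    have hd1 : (1 : ℝ) ≤ d := by exact_mod_cast hd
    have hmax : max ((d : ℝ) / 2) ((d : ℝ) - 1) = (d : ℝ) / 2 := max_eq_left (by linarith)
    rw [hmax]
    have hLpos : (0 : ℝ) < L := by exact_mod_cast (show 0 < L by omega)
    have hmin : min t ((L : ℝ) ^ 2) ^ ((d : ℝ) / 2) = min (t ^ ((d : ℝ) / 2)) ((L : ℝ) ^ d) := by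
      have hLd : ((L : ℝ) ^ 2) ^ ((d : ℝ) / 2) = (L : ℝ) ^ d := by
        rw [← Real.rpow_natCast, ← Real.rpow_natCast, ← Real.rpow_mul hLpos.le]
        congr 1
        push_cast
        ring
      rcases le_total t ((L : ℝ) ^ 2) with h1 | h1
      · rw [min_eq_left h1, min_eq_left]
        rw [← hLd]
        exact Real.rpow_le_rpow ht.le h1 (by positivity)
      · rw [min_eq_right h1, min_eq_right, hLd]
        rw [← hLd]
        exact Real.rpow_le_rpow (by positivity) h1 (by positivity)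
    have h1 := h L hL t ht v K
    rw [hmin] at h1
    obtain ⟨x, hx⟩ : ∃ x : ℝ, x = (K : ℝ) / min (t ^ ((d : ℝ) / 2)) ((L : ℝ) ^ d) := ⟨_, rfl⟩
    rw [← hx] at h1 ⊢
    have hx0 : 0 ≤ x := by
      rw [hx]
      have : 0 < min (t ^ ((d : ℝ) / 2)) ((L : ℝ) ^ d) := lt_min (by positivity) (by positivity)
      positivity
    rcases le_total x 1 with hx1 | hx1
    · rcases eq_or_lt_of_le hx0 with h0 | h0
      · rw [← h0] at h1 ⊢
        rw [Real.zero_rpow (by positivity)] at h1 ⊢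
        linarith
      · have h2 : x ^ (1 / ((d : ℝ) + 1)) ≤ x ^ (1 / ((d : ℝ) + 3)) := by
          refine Real.rpow_le_rpow_of_exponent_ge h0 hx1 ?_
          exact one_div_le_one_div_of_le (by positivity) (by linarith)
        have h3 : 0 ≤ x ^ (1 / ((d : ℝ) + 3)) := by positivity
        nlinarith
    · have h2 : 1 ≤ x ^ (1 / ((d : ℝ) + 3)) := Real.one_le_rpow hx1 (by positivity)
      have h3 := prob_le_one (J := nnRate d L) nn_nonneg ht.le v K
      nlinarith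
  · obtain ⟨C, hC, h⟩ := hLONG d h3
    refine ⟨C, hC, fun L _ hL t ht v K => ?_⟩
    have hd3 : (3 : ℝ) ≤ d := by exact_mod_cast h3
    have hmax : max ((d : ℝ) / 2) ((d : ℝ) - 1) = (d : ℝ) - 1 := max_eq_right (by linarith)
    rw [hmax]
    exact h L hL t ht v K

end Pool.Agent.Y998.LQ
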