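import Pool.Agent.Y998.LQ.Defs2

/-!
# Long cycles in dimension at least three: statements
-/

set_option autoImplicit false

namespace Pool.Agent.Y998.LQ

open Finset Equiv Filter Topology Pool.Agent.Y998.ST Pool.Agent.Y998.CN Pool.Agent.Y998.LP

open Classical in
/-- SHORT2: few of the points `e p` in the cycle of `v` is unlikely. -/
def S_SHORT2 : Prop := ∀ (V : Type) [Fintype V] [DecidableEq V] (J : V → V → ℝ) (t : ℝ), 0 ≤ t →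
  (∀ x y, 0 ≤ J x y) → ∀ (v : V) (K n k : ℕ), 2 * K ≤ n → 0 < n → ∀ e : Fin k × Fin n → V,
  Function.Injective e → (∀ p, e p ≠ v) → ∀ η : ℝ, 0 ≤ η →
  (∀ p, NN J t (swap v (e p)) ≤ η) →
  stirExp J t (fun g => if Nat.card {p : Fin k × Fin n // g.SameCycle v (e p)} ≤ K then 1 else 0) ≤
    2 * (1 / ((k : ℝ) + 1) + η)

/-- GAP: the points of `B` in the cycle of `v` without a return to `B` in the next `K` steps. -/
def S_GAP : Prop := ∀ (V : Type) [Fintype V] [DecidableEq V] (g : Perm V) (v : V) (B : Finset V)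
  (K : ℕ), (K + 1) * Nat.card {z : V // z ∈ B ∧ g.SameCycle v z ∧
    ∀ m, 1 ≤ m → m ≤ K → (g ^ m) z ∉ B} ≤ cycleLen g v

open Classical in
/-- BAD: a return to `B` within `K` steps is unlikely. -/
def S_BAD : Prop := ∀ d : ℕ, 3 ≤ d → ∃ C : ℝ, 0 < C ∧ ∀ (L : ℕ) [NeZero L], 3 ≤ L →
  ∀ t : ℝ, 1 ≤ t → ∀ (K : ℕ) (B : Finset (Fin d → ZMod L)) (z : Fin d → ZMod L),
    stirExp (nnRate d L) t (fun g => if ∃ m, 1 ≤ m ∧ m ≤ K ∧ (g ^ m) z ∈ B then 1 else 0) ≤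
      C * (B.card * (t ^ (-((d : ℝ) / 2)) + K / (L : ℝ) ^ d) +
        (K * t ^ (1 - (d : ℝ) / 2) + (K : ℝ) ^ 2 * t / (L : ℝ) ^ d))

open Classical in
/-- COMB: short cycles, by means of the returns. -/
def S_COMB : Prop := ∀ (V : Type) [Fintype V] [DecidableEq V] (J : V → V → ℝ) (t : ℝ), 0 ≤ t →
  (∀ x y, 0 ≤ J x y) → ∀ (v : V) (K W n k : ℕ), 4 * W ≤ n → 0 < n → ∀ e : Fin k × Fin n → V,
  Function.Injective e → (∀ p, e p ≠ v) → ∀ η : ℝ, 0 ≤ η →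
  (∀ p, NN J t (swap v (e p)) ≤ η) →
  stirExp J t (fun g => if cycleLen g v ≤ (K + 1) * W then 1 else 0) ≤
    2 * (1 / ((k : ℝ) + 1) + η) + (∑ z ∈ univ.image e, stirExp J t (fun g =>
      if ∃ m, 1 ≤ m ∧ m ≤ K ∧ (g ^ m) z ∈ univ.image e then 1 else 0)) / ((W : ℝ) + 1)

/-- SHC: the cycle of a point is rarely shorter than `K` (first part of
MP_6c3d62_pr.CyclesFollowRandomWalk). -/
def S_SHC : Prop := ∀ d : ℕ, 3 ≤ d → ∃ C : ℝ, 0 < C ∧ ∀ (L : ℕ) [NeZero L], 3 ≤ L →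
  ∀ (t : ℝ), 1 ≤ t → ∀ (K : ℕ) (v : Fin d → ZMod L),
    stirExp (nnRate d L) t (fun g => if cycleLen g v < K then 1 else 0) ≤
      C * (K * t ^ (1 - (d : ℝ) / 2) + (K : ℝ) ^ 2 * t / (L : ℝ) ^ d)

/-- LONG: typical cycles have at least of order `min (t ^ (d - 1)) (L ^ d)` points. -/
def S_LONG : Prop := ∀ d : ℕ, 3 ≤ d → ∃ C : ℝ, 0 < C ∧ ∀ (L : ℕ) [NeZero L], 3 ≤ L →
  ∀ t : ℝ, 0 < t → ∀ (v : Fin d → ZMod L) (K : ℕ),
    stirExp (nnRate d L) t (fun g => if cycleLen g v ≤ K then 1 else 0) ≤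
      C * ((K : ℝ) / min (t ^ ((d : ℝ) - 1)) ((L : ℝ) ^ d)) ^ (1 / ((d : ℝ) + 3))

end Pool.Agent.Y998.LQ
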