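import Pool.Agent.Y998.ST.Torus
import Pool.Agent.Y998.LQ.Defs4

/-!
# Nearest neighbour stirring on the torus in dimension `d ≥ 3`: cycles follow a random walk

Let `σ` be the stirring permutation of the torus `(ℤ / L)^d`, `d ≥ 3`, at time `t ≥ 1`.  The points
`σ v, σ² v, ..., σ^K v` of the cycle of `v` are, up to total variation distance
`C (K t^(1 - d/2) + K² t / L^d)`, the positions at the times `t, 2t, ..., Kt` of a random walk
started at `v`.  In particular the cycle of `v` has fewer than `K` points with probability at most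
`C (K t^(1 - d/2) + K² t / L^d)`.
-/

set_option autoImplicit false

namespace Pool.Agent.Y998.LQ.Walk

open Finset Equiv
open Pool.Agent.Y998.ST

theorem sqrt_pow (s : ℝ) (hs : 0 < s) (d : ℕ) :
    (1 / Real.sqrt s) ^ d = s ^ (-((d : ℝ) / 2)) := by
  rw [Real.sqrt_eq_rpow, one_div, ← Real.rpow_neg hs.le, ← Real.rpow_natCast, ← Real.rpow_mul hs.le]
  congr 1
  ring

/-- Nearest neighbour random stirring on the torus `(ℤ / L)^d`, `d ≥ 3`, started at the identity.
There is a constant `C` depending only on `d` such that for all `L ≥ 3`, all times `t ≥ 1`, all `K`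
and all points `v`:

* the probability that the cycle of `v` has fewer than `K` points is at most
  `C (K t ^ (1 - d/2) + K² t / L^d)`;
* the law of `(σ v, σ² v, ..., σ^K v)` differs in `ℓ¹` from the law of a continuous time simple
  random walk started at `v` and observed at the times `t, 2t, ..., Kt` by at most the same
  quantity. -/
theorem walk (d : ℕ) (hd : 3 ≤ d) : ∃ C : ℝ, 0 < C ∧ ∀ (L : ℕ) [NeZero L], 3 ≤ L →
    ∀ (t : ℝ), 1 ≤ t → ∀ (K : ℕ) (v : Fin d → ZMod L),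
      stirExp (nnRate d L) t (fun g => if cycleLen g v < K then 1 else 0) ≤
        C * (K * t ^ (1 - (d : ℝ) / 2) + (K : ℝ) ^ 2 * t / (L : ℝ) ^ d) ∧
      ∑ y : Fin K → Fin d → ZMod L,
        |stirExp (nnRate d L) t
            (fun g => if ∀ i : Fin K, (g ^ ((i : ℕ) + 1)) v = y i then 1 else 0) -
          ∏ i : Fin K, hop (nnRate d L) t
            ((Fin.cons v y : Fin (K + 1) → Fin d → ZMod L) i.castSucc) (y i)| ≤
        C * (K * t ^ (1 - (d : ℝ) / 2) + (K : ℝ) ^ 2 * t / (L : ℝ) ^ d) := by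
  have hd3 : (3 : ℝ) ≤ d := by exact_mod_cast hd
  have hsum : Summable fun n : ℕ => 1 / (n : ℝ) ^ ((d : ℝ) / 2) :=
    Real.summable_one_div_nat_rpow.2 (by linarith)
  obtain ⟨Z, hZ⟩ : ∃ Z : ℝ, Z = ∑' n : ℕ, 1 / (n : ℝ) ^ ((d : ℝ) / 2) := ⟨_, rfl⟩
  have hZ0 : 0 ≤ Z := by rw [hZ]; exact tsum_nonneg fun n => by positivity
  refine ⟨2 * (5 * d * 2 ^ d * (1 + Z)), by positivity, fun L _ hL t ht K v => ?_⟩
  have ht0 : 0 < t := by linarith
  have hLpos : (0 : ℝ) < L := by exact_mod_cast (show 0 < L by omega)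
  obtain ⟨Q, hQdef⟩ : ∃ Q : ℕ → ℝ, Q = fun m : ℕ =>
    2 ^ d * ((1 / (L : ℝ)) ^ d + t ^ (-((d : ℝ) / 2)) * (1 / (m : ℝ) ^ ((d : ℝ) / 2))) := ⟨_, rfl⟩
  have hQ : ∀ m, 0 < m → m < K → ∀ a b, qq (nnRate d L) (m * t) a b ≤ Q m := by
    intro m hm _ a b
    have hm0 : (0 : ℝ) < m := by exact_mod_cast hm
    have hmt : (0 : ℝ) < m * t := by positivity
    refine (qq_torus hL hmt a b).trans ?_
    refine (add_pow_le (by positivity) (by positivity) d).trans ?_
    rw [sqrt_pow _ hmt, hQdef]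
    have h1 : ((m : ℝ) * t) ^ (-((d : ℝ) / 2)) =
        t ^ (-((d : ℝ) / 2)) * (1 / (m : ℝ) ^ ((d : ℝ) / 2)) := by
      rw [Real.mul_rpow hm0.le ht0.le, Real.rpow_neg hm0.le ((d : ℝ) / 2)]
      ring
    rw [h1]
    refine mul_le_mul_of_nonneg_right ?_ (by positivity)
    exact pow_le_pow_right₀ (by norm_num) (by omega)
  have hrow : ∀ x : Fin d → ZMod L, ∑ y, nnRate d L x y ≤ 2 * (d : ℝ) := fun x =>
    (nn_row hL x).le
  have hmain := main_gen (K := K) nn_nonneg nn_symm (nn_diag hL) hrow (by positivity) v ht0.le Q hQ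
  have hS : ∑ m ∈ Finset.Ioo 0 K, Q m ≤
      2 ^ d * (K * (1 / (L : ℝ)) ^ d + t ^ (-((d : ℝ) / 2)) * Z) := by
    rw [hQdef, ← Finset.mul_sum]
    refine mul_le_mul_of_nonneg_left ?_ (by positivity)
    rw [Finset.sum_add_distrib, ← Finset.mul_sum]
    refine add_le_add ?_ (mul_le_mul_of_nonneg_left ?_ (by positivity))
    · rw [Finset.sum_const, nsmul_eq_mul]
      refine mul_le_mul_of_nonneg_right ?_ (by positivity)
      rw [Nat.card_Ioo]
      exact_mod_cast (show K - 0 - 1 ≤ K by omega)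
    · rw [hZ]
      exact hsum.sum_le_tsum _ fun m _ => by positivity
  have hX : (1 + 2 * (2 * (d : ℝ)) * t) * (K * ∑ m ∈ Finset.Ioo 0 K, Q m) ≤
      5 * d * 2 ^ d * (1 + Z) * (K * t ^ (1 - (d : ℝ) / 2) + (K : ℝ) ^ 2 * t / (L : ℝ) ^ d) := by
    have h1 : 1 + 2 * (2 * (d : ℝ)) * t ≤ 5 * d * t := by nlinarith
    have h2 : t ^ (1 - (d : ℝ) / 2) = t * t ^ (-((d : ℝ) / 2)) := by
      rw [sub_eq_add_neg, Real.rpow_add ht0, Real.rpow_one]
    have h3 : 0 ≤ t ^ (-((d : ℝ) / 2)) := by positivity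
    have hK : (0 : ℝ) ≤ K := by positivity
    have hQn : 0 ≤ ∑ m ∈ Finset.Ioo 0 K, Q m := by
      refine Finset.sum_nonneg fun m _ => ?_
      rw [hQdef]
      positivity
    calc (1 + 2 * (2 * (d : ℝ)) * t) * (K * ∑ m ∈ Finset.Ioo 0 K, Q m)
        ≤ (5 * d * t) * (K * (2 ^ d * (K * (1 / (L : ℝ)) ^ d + t ^ (-((d : ℝ) / 2)) * Z))) := by
          refine mul_le_mul h1 (mul_le_mul_of_nonneg_left hS hK) (by positivity) (by positivity)
      _ = 5 * d * 2 ^ d * (Z * (K * (t * t ^ (-((d : ℝ) / 2)))) +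
            1 * ((K : ℝ) ^ 2 * t / (L : ℝ) ^ d)) := by
          rw [one_div_pow]
          ring
      _ ≤ 5 * d * 2 ^ d * ((1 + Z) * (K * (t * t ^ (-((d : ℝ) / 2)))) +
            (1 + Z) * ((K : ℝ) ^ 2 * t / (L : ℝ) ^ d)) := by
          refine mul_le_mul_of_nonneg_left (add_le_add (mul_le_mul_of_nonneg_right ?_ ?_)
            (mul_le_mul_of_nonneg_right ?_ ?_)) (by positivity)
          · linarith
          · positivity
          · linarith
          · positivity
      _ = _ := by rw [h2]; ring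
  have hR : 0 ≤ 5 * d * 2 ^ d * (1 + Z) *
      (K * t ^ (1 - (d : ℝ) / 2) + (K : ℝ) ^ 2 * t / (L : ℝ) ^ d) := by positivity
  refine ⟨hmain.1.trans (by linarith), hmain.2.trans (by linarith)⟩

/-- short cycles -/
theorem t_SHC : Pool.Agent.Y998.LQ.S_SHC := by
  intro d hd
  obtain ⟨C, hC, h⟩ := walk d hd
  exact ⟨C, hC, fun L _ hL t ht K v => (h L hL t ht K v).1⟩

end Pool.Agent.Y998.LQ.Walk
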