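import Pool.Agent.Y998.LP.Low

/-!
# The entropy of nearest neighbour stirring without logarithmic loss: statements

A tower of nested partitions of the torus; at every level the blocks carry complete graphs. The
rates of different levels commute, so that the return probability can be bounded level by level.
-/

set_option autoImplicit false

namespace Pool.Agent.Y998.LQ

open Finset Equiv Filter Topology Pool.Agent.Y998.ST Pool.Agent.Y998.CN Pool.Agent.Y998.LP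

/-- ZC: the trace for the complete graph, all times. -/
def S_ZC : Prop := ∀ (V : Type) [Fintype V] [DecidableEq V] (q : ℕ) (s : ℝ), 0 ≤ s →
  Zf q (fun _ _ : V => (1 : ℝ)) (s / Fintype.card V) ≤
    ((Fintype.card V : ℝ) + 1) ^ q * (1 + q * Real.exp (-(s / 2))) ^ Fintype.card V

/-- COM: commuting rates give a convolution. -/
def S_COM : Prop := ∀ (V : Type) [Fintype V] [DecidableEq V] (J K : V → V → ℝ) (t : ℝ),
  (∀ x y, K x y ≠ 0 → ∀ u v, J (swap x y u) (swap x y v) = J u v) →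
  ∀ g : Perm V, stirLaw (fun x y => J x y + K x y) t g =
    ∑ k, stirLaw J t k * stirLaw K t (k⁻¹ * g)

/-- SUP: without rates between different blocks the blocks are preserved. -/
def S_SUP : Prop := ∀ (V I : Type) [Fintype V] [DecidableEq V] (β : V → I) (J : V → V → ℝ) (t : ℝ),
  (∀ x y, β x ≠ β y → J x y = 0) → ∀ g : Perm V, (∃ v, β (g v) ≠ β v) → stirLaw J t g = 0

/-- ORB: the return probability of a colouring when the rates are invariant under all permutations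
that preserve `β`. -/
def S_ORB : Prop := ∀ (V I : Type) [Fintype V] [DecidableEq V] (β : V → I) (q : ℕ)
  (c : V → Fin q) (J : V → V → ℝ) (t : ℝ), 0 ≤ t → (∀ x y, 0 ≤ J x y) →
  (∀ σ : Perm V, (∀ v, β (σ v) = β v) → ∀ x y, J (σ x) (σ y) = J x y) →
  (Nat.card {σ : Perm V // ∀ v, β (σ v) = β v} : ℝ) *
      (∑ g : Perm V, if ∀ v, c (g v) = c v then stirLaw J t g else 0) ≤
    (Nat.card {σ : Perm V // ∀ v, β (σ v) = β v ∧ c (σ v) = c v} : ℝ) * Zf q J t

/-- TOW: the tower. -/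
def S_TOW : Prop := ∀ (V I : Type) [Fintype V] [DecidableEq V] (q : ℕ) (β : ℕ → V → I)
  (c : ℕ → V → Fin q) (R : ℕ → V → V → ℝ) (t : ℝ), 0 ≤ t → (∀ k x y, 0 ≤ R k x y) →
  (∀ k x y, β k x ≠ β k y → R k x y = 0) →
  (∀ k (σ : Perm V), (∀ v, β k (σ v) = β k v) → ∀ x y, R k (σ x) (σ y) = R k x y) →
  (∀ k x y, β k x = β k y ↔ (β (k + 1) x = β (k + 1) y ∧ c k x = c k y)) →
  Function.Injective (β 0) → ∀ K : ℕ,
  (Nat.card {σ : Perm V // ∀ v, β K (σ v) = β K v} : ℝ) *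
      stirLaw (fun x y => ∑ i ∈ range K, R (i + 1) x y) t 1 ≤
    ∏ i ∈ range K, Zf q (R (i + 1)) t

/-- GC: the number of permutations that preserve `β`. -/
def S_GC : Prop := ∀ (V I : Type) [Fintype V] [DecidableEq V] [Fintype I] [DecidableEq I]
  (β : V → I), Nat.card {σ : Perm V // ∀ v, β (σ v) = β v} =
    ∏ i, (Fintype.card {v : V // β v = i}).factorial

/-- the rates of one level -/
noncomputable def lev {V : Type} [Fintype V] {d L : ℕ} (φ : V ≃ (Fin d → Fin L)) (l : ℕ) (κ : ℝ)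
    (x y : V) : ℝ :=
  if blk φ l x = blk φ l y then κ / ((univ.filter (fun v => blk φ l v = blk φ l x)).card : ℝ) else 0

/-- LEV: the trace of one level. -/
def S_LEV : Prop := ∀ (d q L : ℕ) (V : Type) [Fintype V] [DecidableEq V]
  (φ : V ≃ (Fin d → Fin L)) (l : ℕ), 1 ≤ l → l ≤ L → ∀ κ t : ℝ, 0 ≤ κ → 0 ≤ t →
  Zf q (lev φ l κ) t ≤ Real.exp (q * (L : ℝ) ^ d *
    ((2 / (l : ℝ)) ^ d * Real.log ((l : ℝ) ^ d + 1) + Real.exp (-(κ * t / 2))))

/-- SER: the sum over the levels. -/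
def S_SER : Prop := ∀ d : ℕ, 1 ≤ d → ∃ C : ℝ, 0 ≤ C ∧ ∀ (K : ℕ) (a : ℝ), 1 ≤ a →
  ∑ i ∈ range K, ((2 / (2 : ℝ) ^ (i + 1)) ^ d * Real.log (((2 : ℝ) ^ (i + 1)) ^ d + 1) +
    Real.exp (-(a * 2 ^ (K - (i + 1))))) ≤ C

/-- LOW: the entropy is at least `(d / 2) log t - C` per point. -/
def S_LOW : Prop := ∀ d : ℕ, 1 ≤ d → ∃ C : ℝ, 0 ≤ C ∧ ∀ (L : ℕ) (V : Type) [Fintype V]
  [DecidableEq V] (φ : V ≃ (Fin d → Fin L)) (J : V → V → ℝ), (∀ x y, 0 ≤ J x y) →
  (∀ v w k, co φ w = Function.update (co φ v) k (co φ v k + 1) → 1 ≤ J v w) →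
  ∀ t : ℝ, 1 ≤ t → t ≤ (L : ℝ) ^ 2 →
    (L : ℝ) ^ d * ((d : ℝ) / 2 * Real.log t - C) ≤ ent (stirLaw J t)

end Pool.Agent.Y998.LQ
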