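import Pool.Agent.Y998.LP.Master

/-!
# Typical cycles of nearest neighbour stirring: statements
-/

set_option autoImplicit false

namespace Pool.Agent.Y998.LQ

open Finset Equiv Filter Topology Pool.Agent.Y998.ST Pool.Agent.Y998.CN Pool.Agent.Y998.LP

/-- SHORT: short cycles are unlikely when the law changes little under the transpositions of `v`
and the points `e p`. -/
def S_SHORT : Prop := ∀ (V : Type) [Fintype V] [DecidableEq V] (J : V → V → ℝ) (t : ℝ), 0 ≤ t →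
  (∀ x y, 0 ≤ J x y) → ∀ (v : V) (K n k : ℕ), 2 * K ≤ n → ∀ e : Fin k × Fin n → V,
  Function.Injective e → (∀ p, e p ≠ v) → ∀ η : ℝ, 0 ≤ η →
  (∀ p, NN J t (swap v (e p)) ≤ η) →
  stirExp J t (fun g => if cycleLen g v ≤ K then 1 else 0) ≤ 2 * (1 / ((k : ℝ) + 1) + η)

/-- DST: the law changes little under transpositions. -/
def S_DST : Prop := ∀ d : ℕ, 1 ≤ d → ∃ C : ℝ, 0 < C ∧ ∀ (L : ℕ) [NeZero L], 3 ≤ L →
  ∀ t : ℝ, 0 < t → ∀ x y : Fin d → ZMod L,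
    NN (nnRate d L) t (swap x y) ≤ C * tdist x y / Real.sqrt t

/-- TYP: typical cycles. -/
def S_TYP : Prop := ∀ d : ℕ, 1 ≤ d → ∃ C : ℝ, 0 < C ∧ ∀ (L : ℕ) [NeZero L], 3 ≤ L →
  ∀ t : ℝ, 0 < t → ∀ (v : Fin d → ZMod L) (K : ℕ),
    stirExp (nnRate d L) t (fun g => if cycleLen g v ≤ K then 1 else 0) ≤
      C * ((K : ℝ) / min t ((L : ℝ) ^ 2) ^ ((d : ℝ) / 2)) ^ (1 / ((d : ℝ) + 1))

end Pool.Agent.Y998.LQ
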