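import Pool.Agent.Y998.LQ.Defs
import Pool.Agent.Y998.LP.Master

/-!
# The sharp entropy lower bound from the tower
-/

set_option autoImplicit false

namespace Pool.Agent.Y998.LQ

open Finset Equiv Filter Topology Pool.Agent.Y998.ST Pool.Agent.Y998.CN Pool.Agent.Y998.LP

section tower

variable {V : Type} [Fintype V] [DecidableEq V] {d L : ℕ}

/-- the label of the block of level `k` -/
def lab (φ : V ≃ (Fin d → Fin L)) (k : ℕ) (x : V) : Fin d → ℕ := fun i => co φ x i / 2 ^ k

/-- the position of a block of level `k` in its block of level `k + 1` -/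
def par (φ : V ≃ (Fin d → Fin L)) (k : ℕ) (x : V) : Fin (2 ^ d) :=
  finFunctionFinEquiv fun i => (⟨co φ x i / 2 ^ k % 2, Nat.mod_lt _ two_pos⟩ : Fin 2)

omit [Fintype V] [DecidableEq V] in
theorem lab_step (φ : V ≃ (Fin d → Fin L)) (k : ℕ) (x y : V) :
    lab φ k x = lab φ k y ↔ (lab φ (k + 1) x = lab φ (k + 1) y ∧ par φ k x = par φ k y) := by
  have h2 : ∀ n : ℕ, n / 2 ^ (k + 1) = n / 2 ^ k / 2 := by
    intro n
    rw [pow_succ, Nat.div_div_eq_div_mul]
  constructor
  · intro h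
    have h1 : ∀ i, co φ x i / 2 ^ k = co φ y i / 2 ^ k := fun i => congrFun h i
    refine ⟨?_, ?_⟩
    · funext i
      unfold lab
      rw [h2, h2, h1]
    · unfold par
      simp only [h1]
  · rintro ⟨h, h'⟩
    have h1 : ∀ i, co φ x i / 2 ^ k / 2 = co φ y i / 2 ^ k / 2 := by
      intro i
      have := congrFun h i
      unfold lab at this
      rwa [h2, h2] at this
    have h3 : ∀ i, co φ x i / 2 ^ k % 2 = co φ y i / 2 ^ k % 2 := by
      intro i
      have := congrFun (finFunctionFinEquiv.injective h') i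
      exact congrArg Fin.val this
    funext i
    have e1 := Nat.div_add_mod (co φ x i / 2 ^ k) 2
    have e2 := Nat.div_add_mod (co φ y i / 2 ^ k) 2
    have e3 := h1 i
    have e4 := h3 i
    unfold lab
    omega

omit [Fintype V] [DecidableEq V] in
theorem lab_blk (φ : V ≃ (Fin d → Fin L)) (k : ℕ) (x y : V) :
    lab φ k x = lab φ k y ↔ blk φ (2 ^ k) x = blk φ (2 ^ k) y := by
  constructor
  · intro h
    funext i
    exact Fin.ext (congrFun h i)
  · intro h
    funext i
    have := congrArg Fin.val (congrFun h i)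
    exact this

theorem lab_zero (φ : V ≃ (Fin d → Fin L)) : Function.Injective (lab φ 0) := by
  intro x y h
  apply co_inj φ
  funext i
  have := congrFun h i
  unfold lab at this
  simpa using this

omit [DecidableEq V] in
theorem lev_nonneg (φ : V ≃ (Fin d → Fin L)) (l : ℕ) {κ : ℝ} (hκ : 0 ≤ κ) (x y : V) :
    0 ≤ lev φ l κ x y := by
  unfold lev
  split_ifs
  · positivity
  · exact le_rfl

omit [DecidableEq V] in
theorem lev_inv (φ : V ≃ (Fin d → Fin L)) (k : ℕ) (κ : ℝ) (σ : Perm V)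
    (hσ : ∀ v, lab φ k (σ v) = lab φ k v) (x y : V) :
    lev φ (2 ^ k) κ (σ x) (σ y) = lev φ (2 ^ k) κ x y := by
  have h : ∀ v, blk φ (2 ^ k) (σ v) = blk φ (2 ^ k) v := fun v => (lab_blk φ k _ _).1 (hσ v)
  unfold lev
  rw [h, h]

/-- comparison of the forms of one level -/
theorem lev_form (hPATH : S_PATH) (φ : V ≃ (Fin d → Fin L)) {J : V → V → ℝ}
    (hJ0 : ∀ x y, 0 ≤ J x y)
    (hJ : ∀ v w k, co φ w = Function.update (co φ v) k (co φ v k + 1) → 1 ≤ J v w)
    (hd : 1 ≤ d) {l : ℕ} (hl : 1 ≤ l) {w : ℝ} (hw : 0 ≤ w) (q : ℕ) (f : (V → Fin q) → ℝ) :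
    ∑ x, ∑ y, lev φ l (w * (1 / (16 * d * (l : ℝ) ^ 2))) x y * DD f x y ≤
      w * ∑ x, ∑ y, J x y * DD f x y := by
  have h1 := blocks_form hPATH φ hJ0 hJ hd hl _ rfl q f
  refine le_trans (le_of_eq ?_) (mul_le_mul_of_nonneg_left h1 hw)
  rw [Finset.mul_sum]
  refine Finset.sum_congr rfl fun x _ => ?_
  rw [Finset.mul_sum]
  refine Finset.sum_congr rfl fun y _ => ?_
  unfold lev
  split_ifs
  · ring
  · ring

theorem sum_w (K : ℕ) : ∑ i ∈ range K, (1 / 2 : ℝ) ^ (K - (i + 1)) / 2 ≤ 1 := by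
  have h1 : ∑ i ∈ range K, (1 / 2 : ℝ) ^ (K - (i + 1)) / 2 = ∑ i ∈ range K, (1 / 2 : ℝ) ^ i / 2 := by
    rw [← Finset.sum_range_reflect (fun i => (1 / 2 : ℝ) ^ i / 2)]
    refine Finset.sum_congr rfl fun i _ => ?_
    congr 2
    omega
  have h2 : ∀ K : ℕ, ∑ i ∈ range K, (1 / 2 : ℝ) ^ i / 2 = 1 - (1 / 2) ^ K := by
    intro K
    induction K with
    | zero => simp
    | succ K ih => rw [Finset.sum_range_succ, ih, pow_succ]; ring
  rw [h1, h2]
  have : (0 : ℝ) < (1 / 2) ^ K := by positivity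
  linarith

end tower

/-- The sharp entropy lower bound. -/
theorem t_LOW (hTR : S_TR) (hTOW : S_TOW) (hLEV : S_LEV) (hSER : S_SER) (hGC : S_GC) (hRC : S_RC)
    (hPATH : S_PATH) : S_LOW := by
  intro d hd
  obtain ⟨Cs, hCs, hser⟩ := hSER d hd
  have hd0 : (1 : ℝ) ≤ d := by exact_mod_cast hd
  have hl64 : 0 ≤ Real.log (64 * d) := Real.log_nonneg (by linarith)
  have hl4 : 0 ≤ Real.log 4 := Real.log_nonneg (by norm_num)
  refine ⟨(d : ℝ) / 2 * Real.log (64 * d) + d * Real.log 4 + 1 + 2 ^ d * Cs, by positivity, ?_⟩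
  intro L V _ _ φ J hJ0 hJ t ht htL
  have ht0 : 0 < t := by linarith
  have hLn : (0 : ℝ) ≤ L := by positivity
  have hL0 : (0 : ℝ) < L := by
    rcases eq_or_lt_of_le hLn with h | h
    · rw [← h] at htL; norm_num at htL; linarith
    · exact h
  have hLd : (0 : ℝ) < (L : ℝ) ^ d := by positivity
  have hlaw0 := law_nonneg hJ0 (t := t) ht0.le
  have hlaw1 := law_sum J t
  rcases lt_or_ge t (64 * d) with h | h
  · -- small times: the bound is negative
    have h0 : 0 ≤ ent (stirLaw J t) := by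
      have h1 := ent_ge (stirLaw J t) hlaw0 hlaw1 one_pos (fun g => by
        rw [← hlaw1]
        exact Finset.single_le_sum (fun g _ => hlaw0 g) (Finset.mem_univ g))
      rwa [Real.log_one, neg_zero] at h1
    refine le_trans ?_ h0
    have h1 : Real.log t ≤ Real.log (64 * d) := Real.log_le_log ht0 h.le
    have h3 : (d : ℝ) / 2 * Real.log t ≤ (d : ℝ) / 2 * Real.log (64 * d) :=
      mul_le_mul_of_nonneg_left h1 (by positivity)
    have h4 : 0 ≤ (d : ℝ) * Real.log 4 := by positivity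
    have h5 : 0 ≤ (2 : ℝ) ^ d * Cs := by positivity
    refine mul_nonpos_of_nonneg_of_nonpos hLd.le ?_
    linarith
  · -- the number of levels
    have h64 : (0 : ℝ) < 64 * d := by linarith
    obtain ⟨u, hu⟩ : ∃ u : ℝ, u = t / (64 * d) := ⟨_, rfl⟩
    have hu1 : 1 ≤ u := by rw [hu, le_div_iff₀ h64]; linarith
    have htu : t = 64 * d * u := by rw [hu]; field_simp
    obtain ⟨K, hK⟩ : ∃ K : ℕ, K = Nat.log 4 ⌊u⌋₊ := ⟨_, rfl⟩
    have hfl : ⌊u⌋₊ ≠ 0 := by
      have : 1 ≤ ⌊u⌋₊ := Nat.le_floor (by exact_mod_cast hu1)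
      omega
    have hK1 : (4 : ℝ) ^ K ≤ u := by
      have h1 : 4 ^ K ≤ ⌊u⌋₊ := by rw [hK]; exact Nat.pow_log_le_self 4 hfl
      have h2 : ((4 ^ K : ℕ) : ℝ) ≤ (⌊u⌋₊ : ℝ) := by exact_mod_cast h1
      push_cast at h2
      exact h2.trans (Nat.floor_le (by linarith))
    have hK2 : u < (4 : ℝ) ^ (K + 1) := by
      have h1 : ⌊u⌋₊ < 4 ^ (K + 1) := by rw [hK]; exact Nat.lt_pow_succ_log_self (by norm_num) _
      have h2 : (⌊u⌋₊ : ℝ) + 1 ≤ ((4 ^ (K + 1) : ℕ) : ℝ) := by exact_mod_cast h1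
      push_cast at h2
      exact lt_of_lt_of_le (Nat.lt_floor_add_one u) h2
    have h4K : (0 : ℝ) < 4 ^ K := by positivity
    obtain ⟨a, ha⟩ : ∃ a : ℝ, a = u / 4 ^ K := ⟨_, rfl⟩
    have ha1 : 1 ≤ a := by rw [ha, le_div_iff₀ h4K]; linarith
    have hua : u = a * 4 ^ K := by rw [ha]; field_simp
    have hsq : ((2 : ℝ) ^ K) ^ 2 = 4 ^ K := by rw [← pow_mul, mul_comm, pow_mul]; norm_num
    have h2KL : (2 : ℝ) ^ K ≤ L := by
      refine le_of_sq_le_sq ?_ hLn
      rw [hsq]
      refine hK1.trans (le_trans ?_ htL)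
      rw [htu]
      nlinarith
    have h2KLn : 2 ^ K ≤ L := by exact_mod_cast h2KL
    -- the rates
    obtain ⟨w, hw⟩ : ∃ w : ℕ → ℝ, w = fun k => (1 / 2 : ℝ) ^ (K - k) / 2 := ⟨_, rfl⟩
    have hw0 : ∀ k, 0 ≤ w k := fun k => by rw [hw]; positivity
    obtain ⟨κ, hκ⟩ : ∃ κ : ℕ → ℝ, κ = fun k =>
      w k * (1 / (16 * d * (((2 ^ k : ℕ) : ℝ)) ^ 2)) := ⟨_, rfl⟩
    have hκ0 : ∀ k, 0 ≤ κ k := fun k => by
      rw [hκ]
      have := hw0 k
      positivity
    obtain ⟨R, hR⟩ : ∃ R : ℕ → V → V → ℝ, R = fun k => lev φ (2 ^ k) (κ k) := ⟨_, rfl⟩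
    have htow := hTOW V (Fin d → ℕ) (2 ^ d) (lab φ) (par φ) R t ht0.le
      (fun k x y => by rw [hR]; exact lev_nonneg φ _ (hκ0 k) x y)
      (fun k x y hxy => by
        rw [hR]
        simp only [lev]
        rw [if_neg (fun h => hxy ((lab_blk φ k x y).2 h))])
      (fun k σ hσ x y => by rw [hR]; exact lev_inv φ k _ σ hσ x y)
      (lab_step φ) (lab_zero φ) K
    -- comparison of the forms
    have hcmp : stirLaw J t 1 ≤ stirLaw (fun x y => ∑ i ∈ range K, R (i + 1) x y) t 1 := by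
      refine hRC V J _ t ht0.le fun q f => ?_
      have e1 : ∑ x, ∑ y, (∑ i ∈ range K, R (i + 1) x y) * DD f x y =
          ∑ i ∈ range K, ∑ x, ∑ y, R (i + 1) x y * DD f x y := by
        simp only [Finset.sum_mul]
        rw [Finset.sum_comm (s := range K)]
        refine Finset.sum_congr rfl fun x _ => ?_
        rw [Finset.sum_comm]
      rw [e1]
      have hF : 0 ≤ ∑ x, ∑ y, J x y * DD f x y :=
        Finset.sum_nonneg fun x _ => Finset.sum_nonneg fun y _ =>
          mul_nonneg (hJ0 _ _) (DD_nonneg _ _ _)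
      have e2 : ∀ i ∈ range K, ∑ x, ∑ y, R (i + 1) x y * DD f x y ≤
          w (i + 1) * ∑ x, ∑ y, J x y * DD f x y := by
        intro i _
        rw [hR, hκ]
        exact lev_form hPATH φ hJ0 hJ hd (Nat.one_le_two_pow) (hw0 _) q f
      refine (Finset.sum_le_sum e2).trans ?_
      rw [← Finset.sum_mul]
      refine mul_le_of_le_one_left hF ?_
      rw [hw]
      exact sum_w K
    -- the traces
    have hZ : ∏ i ∈ range K, Zf (2 ^ d) (R (i + 1)) t ≤
        Real.exp ((2 : ℝ) ^ d * (L : ℝ) ^ d * Cs) := by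
      have h1 : ∀ i ∈ range K, Zf (2 ^ d) (R (i + 1)) t ≤ Real.exp ((2 : ℝ) ^ d * (L : ℝ) ^ d *
          ((2 / (2 : ℝ) ^ (i + 1)) ^ d * Real.log (((2 : ℝ) ^ (i + 1)) ^ d + 1) +
            Real.exp (-(a * 2 ^ (K - (i + 1)))))) := by
        intro i hi
        have hi' : i + 1 ≤ K := Finset.mem_range.1 hi
        have h2 := hLEV d (2 ^ d) L V φ (2 ^ (i + 1)) Nat.one_le_two_pow
          ((Nat.pow_le_pow_right two_pos hi').trans h2KLn) (κ (i + 1)) t (hκ0 _) ht0.le
        have h3 : κ (i + 1) * t / 2 = a * 2 ^ (K - (i + 1)) := by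
          obtain ⟨m, hm⟩ : ∃ m, K = i + 1 + m := ⟨K - (i + 1), by omega⟩
          have hm' : K - (i + 1) = m := by omega
          rw [hκ, hw, htu, hua]
          simp only
          rw [hm', hm, pow_add (4 : ℝ)]
          push_cast
          have e4 : ((2 : ℝ) ^ (i + 1)) ^ 2 = 4 ^ (i + 1) := by
            rw [← pow_mul, mul_comm, pow_mul]; norm_num
          have e5 : (4 : ℝ) ^ m = 2 ^ m * 2 ^ m := by rw [← mul_pow]; norm_num
          rw [e4, e5, one_div_pow]
          have p1 : (0 : ℝ) < 2 ^ m := by positivity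
          have p2 : (0 : ℝ) < 4 ^ (i + 1) := by positivity
          field_simp
          ring
        rw [h3] at h2
        rw [hR]
        push_cast at h2
        exact h2
      have hZ0 : ∀ i ∈ range K, 0 ≤ Zf (2 ^ d) (R (i + 1)) t := by
        intro i _
        rw [← hTR]
        refine Finset.sum_nonneg fun g _ => mul_nonneg (law_nonneg (fun x y => ?_) ht0.le g)
          (by positivity)
        rw [hR]
        exact lev_nonneg φ _ (hκ0 _) x y
      refine (Finset.prod_le_prod hZ0 h1).trans ?_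
      rw [← Real.exp_sum, ← Finset.mul_sum]
      exact Real.exp_le_exp.2 (mul_le_mul_of_nonneg_left (hser K a ha1) (by positivity))
    -- the number of permutations
    obtain ⟨n, hn⟩ : ∃ n : (Fin d → Fin (L / 2 ^ K + 1)) → ℕ, n = fun i =>
      Fintype.card {v : V // blk φ (2 ^ K) v = i} := ⟨_, rfl⟩
    have hG : (Nat.card {σ : Perm V // ∀ v, lab φ K (σ v) = lab φ K v} : ℝ) =
        ∏ i, ((n i).factorial : ℝ) := by
      have h1 : Nat.card {σ : Perm V // ∀ v, lab φ K (σ v) = lab φ K v} =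
          Nat.card {σ : Perm V // ∀ v, blk φ (2 ^ K) (σ v) = blk φ (2 ^ K) v} :=
        Nat.card_congr (Equiv.subtypeEquivRight fun σ =>
          forall_congr' fun v => lab_blk φ K _ _)
      rw [h1, hGC V _ (blk φ (2 ^ K)), hn]
      push_cast
      rfl
    have hsum : ∑ i, (n i : ℝ) = (L : ℝ) ^ d := by
      have h1 : Fintype.card V = ∑ i, Fintype.card {v : V // blk φ (2 ^ K) v = i} := by
        rw [← Fintype.card_sigma]
        exact Fintype.card_congr (Equiv.sigmaFiberEquiv (blk φ (2 ^ K))).symm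
      have h2 : Fintype.card V = L ^ d := by
        rw [Fintype.card_congr φ, Fintype.card_fun, Fintype.card_fin, Fintype.card_fin]
      rw [hn]
      rw [h2] at h1
      exact_mod_cast h1.symm
    have hlf := sum_log_fact n hLd hsum
    obtain ⟨G, hGd⟩ : ∃ G : ℝ, G = ∏ i, ((n i).factorial : ℝ) := ⟨_, rfl⟩
    have hG0 : 0 < G := by
      rw [hGd]
      exact Finset.prod_pos fun i _ => by exact_mod_cast Nat.factorial_pos _
    have hlogG : Real.log G = ∑ i, Real.log ((n i).factorial : ℝ) := by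
      rw [hGd, Real.log_prod (fun i _ => by
        have : (0 : ℝ) < ((n i).factorial : ℝ) := by exact_mod_cast Nat.factorial_pos _
        exact this.ne')]
    obtain ⟨M, hM⟩ : ∃ M : ℝ, M = Real.exp ((2 : ℝ) ^ d * (L : ℝ) ^ d * Cs) / G := ⟨_, rfl⟩
    have hM0 : 0 < M := by rw [hM]; positivity
    have hret : stirLaw J t 1 ≤ M := by
      rw [hM, le_div_iff₀ hG0]
      rw [hG, ← hGd] at htow
      have h1 := mul_le_mul_of_nonneg_right hcmp hG0.le
      linarith
    have hent := ent_ge (stirLaw J t) hlaw0 hlaw1 hM0 (fun g => (law_max J t g).trans hret)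
    refine le_trans ?_ hent
    have hlogM : Real.log M = (2 : ℝ) ^ d * (L : ℝ) ^ d * Cs - Real.log G := by
      rw [hM, Real.log_div (Real.exp_pos _).ne' hG0.ne', Real.log_exp]
    rw [hlogM, hlogG]
    have hcardI : (Fintype.card (Fin d → Fin (L / 2 ^ K + 1)) : ℝ) =
        ((L / 2 ^ K + 1 : ℕ) : ℝ) ^ d := by
      rw [Fintype.card_fun, Fintype.card_fin, Fintype.card_fin]
      push_cast
      rfl
    have h2K : (0 : ℝ) < 2 ^ K := by positivity
    have hblocks : ((L / 2 ^ K + 1 : ℕ) : ℝ) ≤ 2 * L / 2 ^ K := by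
      have h1 : ((L / 2 ^ K : ℕ) : ℝ) ≤ (L : ℝ) / 2 ^ K := by
        have := @Nat.cast_div_le ℝ _ _ _ L (2 ^ K)
        push_cast at this
        exact this
      have h2 : 1 ≤ (L : ℝ) / 2 ^ K := by rw [le_div_iff₀ h2K]; linarith
      push_cast
      rw [mul_div_assoc]
      linarith
    obtain ⟨m, hm⟩ : ∃ m : ℝ, m = ((L / 2 ^ K + 1 : ℕ) : ℝ) ^ d := ⟨_, rfl⟩
    have hm0 : 0 < m := by rw [hm]; positivity
    have hm1 : m ≤ (2 * L / 2 ^ K) ^ d := by
      rw [hm]; exact pow_le_pow_left₀ (by positivity) hblocks d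
    rw [hcardI, ← hm] at hlf
    have h5 : d * (K * Real.log 2 - Real.log 2) ≤ Real.log ((L : ℝ) ^ d / m) := by
      have h6 : ((2 : ℝ) ^ K / 2) ^ d ≤ (L : ℝ) ^ d / m := by
        rw [le_div_iff₀ hm0]
        refine (mul_le_mul_of_nonneg_left hm1 (by positivity)).trans (le_of_eq ?_)
        rw [← mul_pow]
        congr 1
        field_simp
      have h7 := Real.log_le_log (by positivity) h6
      rw [Real.log_pow, Real.log_div (by positivity) (by norm_num), Real.log_pow] at h7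
      exact h7
    have h6 : Real.log t - Real.log (64 * d) ≤ 2 * (K * Real.log 2 + Real.log 2) := by
      have h7 : Real.log u ≤ Real.log ((4 : ℝ) ^ (K + 1)) := Real.log_le_log (by linarith) hK2.le
      have h8 : Real.log (4 : ℝ) = 2 * Real.log 2 := by
        rw [show (4 : ℝ) = 2 ^ 2 by norm_num, Real.log_pow]
        push_cast
        ring
      rw [Real.log_pow, h8] at h7
      rw [hu, Real.log_div ht0.ne' h64.ne'] at h7
      push_cast at h7
      linarith
    have h8 : Real.log (4 : ℝ) = 2 * Real.log 2 := by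
      rw [show (4 : ℝ) = 2 ^ 2 by norm_num, Real.log_pow]
      push_cast
      ring
    have h9 : (d : ℝ) / 2 * Real.log t - ((d : ℝ) / 2 * Real.log (64 * d) + d * Real.log 4) ≤
        Real.log ((L : ℝ) ^ d / m) := by
      refine le_trans ?_ h5
      rw [h8]
      have h10 := mul_le_mul_of_nonneg_left h6 (by positivity : (0 : ℝ) ≤ (d : ℝ) / 2)
      nlinarith
    have h10 := mul_le_mul_of_nonneg_left h9 hLd.le
    have h11 : (L : ℝ) ^ d * ((d : ℝ) / 2 * Real.log t -
        ((d : ℝ) / 2 * Real.log (64 * d) + d * Real.log 4 + 1 + 2 ^ d * Cs)) =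
        (L : ℝ) ^ d * ((d : ℝ) / 2 * Real.log t -
          ((d : ℝ) / 2 * Real.log (64 * d) + d * Real.log 4)) - (L : ℝ) ^ d -
          2 ^ d * (L : ℝ) ^ d * Cs := by ring
    rw [h11]
    linarith

/-- The entropy increment over `[t / 2, t]` is at most a constant per point. -/
theorem delta2 (hLOW : S_LOW) (hUP : S_UP) (d : ℕ)
    (hd : 1 ≤ d) : ∃ C : ℝ, 0 < C ∧ ∀ (L : ℕ) [NeZero L], 3 ≤ L → ∀ t : ℝ, 2 ≤ t →
      ent (stirLaw (nnRate d L) t) - ent (stirLaw (nnRate d L) (t / 2)) ≤ C * (L : ℝ) ^ d := by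
  obtain ⟨C0, hC0, hlow⟩ := hLOW d hd
  obtain ⟨Cu, hCu, hup⟩ := hUP d hd
  have hd0 : (1 : ℝ) ≤ d := by exact_mod_cast hd
  refine ⟨d + Cu + C0, by positivity, fun L _ hL t ht => ?_⟩
  have hL3 : (3 : ℝ) ≤ L := by exact_mod_cast hL
  have hLd : (0 : ℝ) < (L : ℝ) ^ d := by positivity
  have hL2 : (9 : ℝ) ≤ (L : ℝ) ^ 2 := by nlinarith
  obtain ⟨T, hT⟩ : ∃ T : ℝ, T = min t ((L : ℝ) ^ 2) := ⟨_, rfl⟩
  have hT4 : 2 ≤ T := by rw [hT]; exact le_min ht (by linarith)
  have hTt : T ≤ t := by rw [hT]; exact min_le_left _ _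
  have hlog2 : Real.log 2 ≤ 1 := by have := Real.log_two_lt_d9; linarith
  have hlog2' : 0 ≤ Real.log 2 := Real.log_nonneg (by norm_num)
  have hJ0 : ∀ x y, 0 ≤ nnRate d L x y := nn_nonneg
  -- upper bound
  have hU : ent (stirLaw (nnRate d L) t) ≤ (L : ℝ) ^ d * ((d : ℝ) / 2 * Real.log T + Cu) := by
    rcases le_total t ((L : ℝ) ^ 2) with h | h
    · rw [hT, min_eq_left h]
      exact hup L hL t (by linarith)
    · rw [hT, min_eq_right h]
      have h1 := ent_le_card (stirLaw (nnRate d L) t) (law_nonneg hJ0 (by linarith)) (law_sum _ _)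
      refine (h1.trans (log_card_perm d L)).trans (mul_le_mul_of_nonneg_left ?_ hLd.le)
      linarith
  -- lower bound
  have hW : (L : ℝ) ^ d * ((d : ℝ) / 2 * (Real.log T - Real.log 2) - C0) ≤
      ent (stirLaw (nnRate d L) (t / 2)) := by
    rcases le_total (t / 2) ((L : ℝ) ^ 2) with h | h
    · have h1 := hlow L (Fin d → ZMod L) (phi d L) (nnRate d L) hJ0 nn_adj (t / 2)
        (by linarith) h
      refine le_trans (mul_le_mul_of_nonneg_left ?_ hLd.le) h1
      have h3 : Real.log T - Real.log 2 ≤ Real.log (t / 2) := by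
        rw [← Real.log_div (by linarith) (by norm_num)]
        exact Real.log_le_log (by linarith) (by linarith)
      have h6 : (d : ℝ) / 2 * (Real.log T - Real.log 2) ≤ (d : ℝ) / 2 * Real.log (t / 2) :=
        mul_le_mul_of_nonneg_left (by linarith) (by positivity)
      linarith
    · have hTL : T = (L : ℝ) ^ 2 := by rw [hT]; exact min_eq_right (by linarith)
      have h1 := hlow L (Fin d → ZMod L) (phi d L) (nnRate d L) hJ0 nn_adj ((L : ℝ) ^ 2)
        (by linarith) le_rfl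
      have h2 := law_shift hJ0 (by positivity : (0 : ℝ) ≤ (L : ℝ) ^ 2) h
      refine le_trans (mul_le_mul_of_nonneg_left ?_ hLd.le) (h1.trans h2)
      rw [hTL]
      have h6 : (d : ℝ) / 2 * (Real.log ((L : ℝ) ^ 2) - Real.log 2) ≤
          (d : ℝ) / 2 * Real.log ((L : ℝ) ^ 2) :=
        mul_le_mul_of_nonneg_left (by linarith) (by positivity)
      linarith
  have h4 : (d : ℝ) / 2 * Real.log 2 ≤ d := by nlinarith
  have h5 := mul_le_mul_of_nonneg_left h4 hLd.le
  nlinarith

/-- The law changes little under a nearest neighbour transposition. -/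
theorem master2 (hLOW : S_LOW) (hUP : S_UP)
    (hPOS : S_POS) (hENT : S_ENT) (d : ℕ) (hd : 1 ≤ d) : ∃ C : ℝ, 0 < C ∧
      ∀ (L : ℕ) [NeZero L], 3 ≤ L → ∀ t : ℝ, 0 < t → ∀ (x : Fin d → ZMod L) (i : Fin d),
        NN (nnRate d L) t (swap x (Function.update x i (x i + 1))) ≤ C / Real.sqrt t := by
  obtain ⟨C, hC, hdel⟩ := delta2 hLOW hUP d hd
  refine ⟨Real.sqrt (8 * C) + 4, by positivity, fun L _ hL t ht0 x i => ?_⟩
  have hst : 0 < Real.sqrt t := Real.sqrt_pos.2 ht0
  have hL3 : (3 : ℝ) ≤ L := by exact_mod_cast hL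
  have hLd : (0 : ℝ) < (L : ℝ) ^ d := by positivity
  have hJ0 : ∀ x y, 0 ≤ nnRate d L x y := nn_nonneg
  rcases lt_or_ge t 2 with ht | ht
  · -- small times: the trivial bound
    have h1 : NN (nnRate d L) t (swap x (Function.update x i (x i + 1))) ≤ 2 := by
      unfold NN
      have h2 : ∀ g : Perm (Fin d → ZMod L),
          |stirLaw (nnRate d L) t ((swap x (Function.update x i (x i + 1)))⁻¹ * g) -
            stirLaw (nnRate d L) t g| ≤
          stirLaw (nnRate d L) t ((swap x (Function.update x i (x i + 1)))⁻¹ * g) +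
            stirLaw (nnRate d L) t g := by
        intro g
        have h3 := law_nonneg hJ0 ht0.le ((swap x (Function.update x i (x i + 1)))⁻¹ * g)
        have h4 := law_nonneg hJ0 ht0.le g
        rw [abs_le]
        constructor <;> linarith
      refine (Finset.sum_le_sum fun g _ => h2 g).trans ?_
      rw [Finset.sum_add_distrib, law_sum]
      have h5 : ∑ g, stirLaw (nnRate d L) t ((swap x (Function.update x i (x i + 1)))⁻¹ * g) =
          1 := by
        rw [← law_sum (nnRate d L) t]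
        exact Equiv.sum_comp (Equiv.mulLeft (swap x (Function.update x i (x i + 1)))⁻¹)
          (stirLaw (nnRate d L) t)
      rw [h5]
      norm_num
    refine h1.trans ?_
    rw [le_div_iff₀ hst]
    have h2 : Real.sqrt t ≤ 2 := by
      rw [Real.sqrt_le_left (by norm_num)]
      linarith
    have h3 : 0 ≤ Real.sqrt (8 * C) := Real.sqrt_nonneg _
    linarith
  have h1 := hENT (Perm (Fin d → ZMod L)) (stirLaw (nnRate d L)) (jr (nnRate d L))
    (hPOS d L hL) (fun t _ => law_sum _ t) (fun s t _ _ g => law_add _ s t g)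
    (law_cont _) (law_slope _) t ht0
  have h1 := h1.trans (hdel L hL t ht)
  have h2 : ∑ h, jr (nnRate d L) h * ((∑ g, |stirLaw (nnRate d L) t (h⁻¹ * g) -
      stirLaw (nnRate d L) t g|) ^ 2 / 2) =
      ∑ x, ∑ y, nnRate d L x y / 2 * (NN (nnRate d L) t (swap x y) ^ 2 / 2) :=
    sum_jr (nnRate d L) fun h => NN (nnRate d L) t h ^ 2 / 2
  rw [h2] at h1
  obtain ⟨a, ha⟩ : ∃ a : ℝ, a = NN (nnRate d L) t (swap x (Function.update x i (x i + 1))) :=
    ⟨_, rfl⟩
  have ha0 : 0 ≤ a := by rw [ha]; exact NN_nonneg _ _ _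
  have h3 : ∀ x' : Fin d → ZMod L,
      NN (nnRate d L) t (swap x' (Function.update x' i (x' i + 1))) = a := by
    intro x'
    have hσ : ∀ z : Fin d → ZMod L, Equiv.addRight (x' - x) z = z + (x' - x) := fun z => rfl
    have e1 : swap x' (Function.update x' i (x' i + 1)) =
        Equiv.addRight (x' - x) * swap x (Function.update x i (x i + 1)) *
          (Equiv.addRight (x' - x))⁻¹ := by
      rw [← swap_apply_apply, hσ, hσ, add_sub_cancel]
      congr 1
      funext j
      by_cases hj : j = i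
      · subst hj
        simp only [Function.update_self, Pi.add_apply, Pi.sub_apply]
        ring
      · simp only [Function.update_of_ne hj, Pi.add_apply, Pi.sub_apply]
        ring
    rw [e1, NN_conj _ (fun u v => by rw [hσ, hσ, nn_trans]), ha]
  have h4 : (L : ℝ) ^ d * (a ^ 2 / 4) ≤
      ∑ x, ∑ y, nnRate d L x y / 2 * (NN (nnRate d L) t (swap x y) ^ 2 / 2) := by
    have e1 : (L : ℝ) ^ d * (a ^ 2 / 4) = ∑ _x : Fin d → ZMod L, a ^ 2 / 4 := by
      rw [Finset.sum_const, Finset.card_univ, Fintype.card_fun, ZMod.card, Fintype.card_fin,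
        nsmul_eq_mul]
      push_cast
      rfl
    rw [e1]
    refine Finset.sum_le_sum fun z _ => ?_
    refine le_trans ?_ (Finset.single_le_sum (f := fun y => nnRate d L z y / 2 *
      (NN (nnRate d L) t (swap z y) ^ 2 / 2)) (fun y _ => ?_)
      (Finset.mem_univ (Function.update z i (z i + 1))))
    · rw [h3]
      have h5 : nnRate d L z (Function.update z i (z i + 1)) = 1 := by
        unfold nnRate
        rw [if_pos ⟨i, Or.inl rfl⟩]
      rw [h5]
      exact (by ring : a ^ 2 / 4 = 1 / 2 * (a ^ 2 / 2)).le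
    · have := hJ0 z y
      positivity
  have h5 : t / 2 * ((L : ℝ) ^ d * (a ^ 2 / 4)) ≤ C * (L : ℝ) ^ d :=
    (mul_le_mul_of_nonneg_left h4 (by positivity)).trans h1
  have h6 : a ^ 2 ≤ 8 * C / t := by
    have h7 : (L : ℝ) ^ d * (t * a ^ 2) ≤ (L : ℝ) ^ d * (8 * C) := by nlinarith
    have h8 := le_of_mul_le_mul_left h7 hLd
    rw [le_div_iff₀ ht0]
    linarith
  rw [← ha]
  have h9 : a ≤ Real.sqrt (8 * C) / Real.sqrt t := by
    rw [← Real.sqrt_div (by positivity)]
    exact Real.le_sqrt_of_sq_le h6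
  refine h9.trans ?_
  exact div_le_div_of_nonneg_right (by linarith) hst.le

end Pool.Agent.Y998.LQ
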