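import Pool.Agent.Y998.LQ.Ent
import Pool.Agent.Y998.LQ.Defs2
import Pool.Agent.Y998.LP.Final
import Pool.Agent.Y267.LQ.ZC
import Pool.Agent.Y309.LQ.Com
import Pool.Agent.Y764.LQ.Tow
import Pool.Agent.Y948.LQ.Orb
import Pool.Agent.Y495.LQ.SG
import Pool.Agent.Y495.LQ.Ser
import Pool.Agent.Y545.LQ.LEV

/-!
# The local Poisson-Dirichlet law at the diffusive scale
-/

set_option autoImplicit false

namespace Pool.Agent.Y998.LQ

open Finset Equiv Filter Topology Pool.Agent.Y998.ST Pool.Agent.Y998.CN Pool.Agent.Y998.LP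
open Pool.Agent.TH268.PD (Cyc cyOf frac top ret ret_spec unif um pdm pdl pdm_close lip_approx)

theorem low : S_LOW :=
  t_LOW Pool.Agent.Y664.CN.t_TR
    (Pool.Agent.Y764.LQ.t_TOW Pool.Agent.Y309.LQ.t_COM Pool.Agent.Y495.LQ.t_SUP
      (Pool.Agent.Y948.LQ.t_ORB Pool.Agent.Y664.CN.t_TR))
    (Pool.Agent.Y545.LQ.t_LEV (Pool.Agent.Y267.LQ.t_ZC Pool.Agent.Y495.LP.t_EN2)
      Pool.Agent.Y154.CN.t_PR)
    Pool.Agent.Y495.LQ.t_SER Pool.Agent.Y495.LQ.t_GC
    (Pool.Agent.Y799.LP.t_RC Pool.Agent.Y641.CN.t_PB Pool.Agent.Y664.CN.t_TR)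
    Pool.Agent.Y950.CN.t_PATH

/-- The law changes little under transpositions. -/
theorem t_dist : S_DST := by
  intro d hd
  obtain ⟨C, hC, h⟩ := master2 low Pool.Agent.Y415.LP.t_UP Pool.Agent.Y350.LP.Pos.t_POS
    (Pool.Agent.Y415.LP.t_ENT Pool.Agent.Y768.LP.t_PIN Pool.Agent.Y768.LP.t_DPI) d hd
  refine ⟨2 * C, by positivity, fun L _ hL t ht x y => ?_⟩
  have h1 := Pool.Agent.Y350.LP.Pos.t_DIST d L hL (NN (nnRate d L) t)
    (C / Real.sqrt t) (by positivity) (NN_one _ _) (NN_mul _ _) (h L hL t ht) x y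
  refine h1.trans (le_of_eq ?_)
  ring

section gen

variable {V : Type} [Fintype V] [DecidableEq V]

/-- The mean of a function of the induced permutation. -/
theorem ind_mean (J : V → V → ℝ) (t : ℝ) {k : ℕ} (b : Fin k → V) (hb : Function.Injective b)
    (η : ℝ) (hη : 0 ≤ η) (h : ∀ i j, NN J t (swap (b i) (b j)) ≤ η) (G : Perm (Fin k) → ℝ)
    (C : ℝ) (hC : 0 ≤ C) (hG : ∀ π, |G π| ≤ C) :
    |∑ g, stirLaw J t g * G (ret k b g) - (∑ π, G π) / (k.factorial : ℝ)| ≤ k * (C * η) := by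
  classical
  obtain ⟨_, h2, _, _⟩ := ret_spec k b hb
  obtain ⟨P, hP⟩ : ∃ P : Perm (Fin k) → ℝ, P = fun σ =>
    ∑ g, stirLaw J t g * G (σ⁻¹ * ret k b g) := ⟨_, rfl⟩
  have h3 : ∀ i j : Fin k, i ≠ j → ∀ σ, |P σ - P (swap i j * σ)| ≤ C * η := by
    intro i j _ σ
    have e1 : P (swap i j * σ) = ∑ g, stirLaw J t ((swap (b i) (b j))⁻¹ * g) *
        G (σ⁻¹ * ret k b g) := by
      rw [hP]
      beta_reduce
      rw [← Equiv.sum_comp (Equiv.mulLeft (swap (b i) (b j)))⁻¹]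
      refine Finset.sum_congr rfl fun g _ => ?_
      have e3 : ((Equiv.mulLeft (swap (b i) (b j)))⁻¹ : Perm (Perm V)) g =
          (swap (b i) (b j))⁻¹ * g := rfl
      rw [e3]
      congr 2
      rw [swap_inv, h2, mul_inv_rev, swap_inv, ← mul_assoc, mul_assoc σ⁻¹, swap_mul_self,
        mul_one]
    rw [e1, hP]
    beta_reduce
    rw [← Finset.sum_sub_distrib]
    refine (Finset.abs_sum_le_sum_abs _ _).trans ?_
    refine le_trans ?_ (mul_le_mul_of_nonneg_left (h i j) hC)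
    unfold NN
    rw [Finset.mul_sum]
    refine Finset.sum_le_sum fun g _ => ?_
    rw [← sub_mul, abs_mul, abs_sub_comm, mul_comm]
    exact mul_le_mul_of_nonneg_right (hG _) (abs_nonneg _)
  have h4 := unif k P (C * η) (by positivity) h3 1
  have e1 : P 1 = ∑ g, stirLaw J t g * G (ret k b g) := by
    rw [hP]
    simp
  have e2 : ∑ σ, P σ = ∑ π, G π := by
    rw [hP]
    beta_reduce
    rw [Finset.sum_comm]
    have e3 : ∀ g : Perm V, ∑ σ : Perm (Fin k), stirLaw J t g * G (σ⁻¹ * ret k b g) =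
        stirLaw J t g * ∑ π, G π := by
      intro g
      rw [← Finset.mul_sum]
      congr 1
      rw [← Equiv.sum_comp ((Equiv.inv (Perm (Fin k))).trans (Equiv.mulRight (ret k b g))) G]
      rfl
    rw [Finset.sum_congr rfl fun g _ => e3 g, ← Finset.sum_mul, law_sum, one_mul]
  rw [e1, e2] at h4
  exact h4

/-- the ordered fractions of a set with nearly exchangeable points -/
theorem set_mean2 {J : V → V → ℝ} (hJ : ∀ x y, 0 ≤ J x y) {t : ℝ} (ht : 0 ≤ t) (B : Finset V)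
    (k : ℕ) (hk : 0 < k) (hB : 0 < B.card) (η : ℝ) (hη : 0 ≤ η)
    (h : ∀ x ∈ B, ∀ y ∈ B, NN J t (swap x y) ≤ η) (m : ℕ) (f : (Fin m → ℝ) → ℝ) (C Λ : ℝ)
    (hΛ : 0 ≤ Λ) (hC : ∀ u, |f u| ≤ C)
    (hf : ∀ (u v : Fin m → ℝ) (e : ℝ), 0 ≤ e → (∀ i, |u i - v i| ≤ e) → |f u - f v| ≤ Λ * e) :
    |∑ g, stirLaw J t g * f (fun i => top (bfrac B g) i) - um k f| ≤
      Λ / Real.sqrt k + 2 * (C * (k ^ 2 / B.card)) + k * (C * η) := by
  classical
  have hC0 : 0 ≤ C := (abs_nonneg _).trans (hC (fun _ => 0))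
  obtain ⟨n, hn⟩ : ∃ n : ℝ, n = (B.card : ℝ) := ⟨_, rfl⟩
  have hn0 : 0 < n := by rw [hn]; exact_mod_cast hB
  obtain ⟨F, hF⟩ : ∃ F : Perm (Fin k) → ℝ, F = fun π => f (fun i => top (frac π) i) := ⟨_, rfl⟩
  have hFC : ∀ π, |F π| ≤ C := fun π => by rw [hF]; exact hC _
  obtain ⟨S, hS⟩ : ∃ S, S = (Fintype.piFinset (fun _ : Fin k => B)).filter Function.Injective :=
    ⟨_, rfl⟩
  have hScard : |(S.card : ℝ) - n ^ k| ≤ (k : ℝ) ^ 2 * n ^ (k - 1) := by
    rw [hS, hn]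
    exact card_inj B k hk hB
  have hSle : (S.card : ℝ) ≤ n ^ k := by
    have h1 : S.card ≤ (Fintype.piFinset (fun _ : Fin k => B)).card := by
      rw [hS]; exact Finset.card_filter_le _ _
    rw [Fintype.card_piFinset_const] at h1
    rw [hn]
    exact_mod_cast h1
  obtain ⟨T, hT⟩ : ∃ T, T = ∑ g, stirLaw J t g * f (fun i => top (bfrac B g) i) := ⟨_, rfl⟩
  have h1 : |∑ b ∈ S, ∑ g, stirLaw J t g * F (ret k b g) - n ^ k * T| ≤
      n ^ k * (Λ / Real.sqrt k) + C * ((k : ℝ) ^ 2 * n ^ (k - 1)) := by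
    have e1 : ∑ b ∈ S, ∑ g, stirLaw J t g * F (ret k b g) - n ^ k * T =
        ∑ g, stirLaw J t g * ((∑ b ∈ Fintype.piFinset (fun _ : Fin k => B),
          if Function.Injective b then F (ret k b g) else 0) -
            n ^ k * f (fun i => top (bfrac B g) i)) := by
      rw [Finset.sum_comm, hT, Finset.mul_sum, ← Finset.sum_sub_distrib]
      refine Finset.sum_congr rfl fun g _ => ?_
      rw [hS, Finset.sum_filter, mul_sub, Finset.mul_sum]
      congr 1
      · refine Finset.sum_congr rfl fun b _ => ?_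
        rw [mul_ite, mul_zero]
      · ring
    rw [e1]
    refine (Finset.abs_sum_le_sum_abs _ _).trans ?_
    have h2 : ∀ g : Perm V, |(∑ b ∈ Fintype.piFinset (fun _ : Fin k => B),
          if Function.Injective b then F (ret k b g) else 0) -
            n ^ k * f (fun i => top (bfrac B g) i)| ≤
          n ^ k * (Λ / Real.sqrt k) + C * ((k : ℝ) ^ 2 * n ^ (k - 1)) := by
      intro g
      have h3 := Pool.Agent.Y259.LP.t_SAMP V B k hk hB g (fun b => ret k b g)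
        (fun b hb => (ret_spec k b hb).2.2.2 g) m f C Λ hΛ hC hf
      rw [hn, hF]
      convert h3 using 4
    have h4 : ∀ g : Perm V, |stirLaw J t g * ((∑ b ∈ Fintype.piFinset (fun _ : Fin k => B),
          if Function.Injective b then F (ret k b g) else 0) -
            n ^ k * f (fun i => top (bfrac B g) i))| ≤ stirLaw J t g *
          (n ^ k * (Λ / Real.sqrt k) + C * ((k : ℝ) ^ 2 * n ^ (k - 1))) := by
      intro g
      rw [abs_mul, abs_of_nonneg (law_nonneg hJ ht g)]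
      exact mul_le_mul_of_nonneg_left (h2 g) (law_nonneg hJ ht g)
    refine (Finset.sum_le_sum fun g _ => h4 g).trans (le_of_eq ?_)
    rw [← Finset.sum_mul, law_sum, one_mul]
  have hum : um k f = (∑ π, F π) / (k.factorial : ℝ) := by rw [hF]; rfl
  have h2 : |∑ b ∈ S, ∑ g, stirLaw J t g * F (ret k b g) - S.card * um k f| ≤
      S.card * (k * (C * η)) := by
    rw [hum, ← nsmul_eq_mul, ← nsmul_eq_mul, ← Finset.sum_const, ← Finset.sum_const,
      ← Finset.sum_sub_distrib]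
    refine (Finset.abs_sum_le_sum_abs _ _).trans (Finset.sum_le_sum fun b hb => ?_)
    rw [hS, Finset.mem_filter, Fintype.mem_piFinset] at hb
    exact ind_mean J t b hb.2 η hη (fun i j => h _ (hb.1 i) _ (hb.1 j)) F C hC0 hFC
  have humC : |um k f| ≤ C := by
    have hfac : (0 : ℝ) < (k.factorial : ℝ) := by exact_mod_cast k.factorial_pos
    rw [hum, abs_div, abs_of_pos hfac, div_le_iff₀ hfac]
    refine (Finset.abs_sum_le_sum_abs _ _).trans ?_
    refine (Finset.sum_le_sum fun σ _ => hFC σ).trans (le_of_eq ?_)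
    rw [Finset.sum_const, Finset.card_univ, Fintype.card_perm, Fintype.card_fin, nsmul_eq_mul,
      mul_comm]
  have h3 : |(S.card : ℝ) * um k f - n ^ k * um k f| ≤ C * ((k : ℝ) ^ 2 * n ^ (k - 1)) := by
    rw [← sub_mul, abs_mul, mul_comm]
    exact mul_le_mul humC hScard (abs_nonneg _) hC0
  have hX0 : 0 ≤ (k : ℝ) * (C * η) := by positivity
  have h4 : n ^ k * |T - um k f| ≤ n ^ k * (Λ / Real.sqrt k) + 2 * (C * ((k : ℝ) ^ 2 *
      n ^ (k - 1))) + n ^ k * (k * (C * η)) := by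
    have h5 : n ^ k * |T - um k f| = |n ^ k * T - n ^ k * um k f| := by
      rw [← mul_sub, abs_mul, abs_of_pos (pow_pos hn0 k)]
    rw [h5]
    have h6 := mul_le_mul_of_nonneg_right hSle hX0
    rw [abs_le] at h1 h2 h3 ⊢
    constructor <;> linarith [h1.1, h1.2, h2.1, h2.2, h3.1, h3.2]
  have hnk : n ^ k = n ^ (k - 1) * n := by
    rw [← pow_succ]
    congr 1
    omega
  have hnk0 : 0 < n ^ k := pow_pos hn0 k
  have h5 : n ^ k * (Λ / Real.sqrt k) + 2 * (C * ((k : ℝ) ^ 2 *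
      n ^ (k - 1))) + n ^ k * (k * (C * η)) = n ^ k * (Λ / Real.sqrt k +
        2 * (C * (k ^ 2 / n)) + k * (C * η)) := by
    rw [hnk]
    field_simp
  rw [h5] at h4
  have h6 := le_of_mul_le_mul_left h4 hnk0
  rw [← hT, ← hn]
  exact h6

theorem bfrac_nonneg (B : Finset V) (g : Perm V) (γ : Cyc g) : 0 ≤ bfrac B g γ := by
  unfold bfrac
  positivity

theorem bfrac_le_one (B : Finset V) (g : Perm V) (γ : Cyc g) : bfrac B g γ ≤ 1 := by
  unfold bfrac
  apply div_le_one_of_le₀ _ (Nat.cast_nonneg _)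
  have h1 : Nat.card {v : V // v ∈ B ∧ cyOf g v = γ} ≤ Nat.card {v : V // v ∈ B} :=
    Nat.card_le_card_of_injective (fun x => (⟨x.1, x.2.1⟩ : {v : V // v ∈ B}))
      (fun x y hxy => Subtype.ext (congrArg (fun z : {v : V // v ∈ B} => z.1) hxy))
  have h2 : Nat.card {v : V // v ∈ B} = B.card := by
    rw [Nat.card_eq_fintype_card, Fintype.card_coe]
  rw [h2] at h1
  exact_mod_cast h1

end gen

/-- The Poisson-Dirichlet law, for any rates: sets with nearly exchangeable points. -/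
theorem pd_gen (m : ℕ) (f : (Fin m → ℝ) → ℝ) (hfc : Continuous f) (C : ℝ)
    (hC : ∀ u, |f u| ≤ C) (ε : ℝ) (hε : 0 < ε) : ∃ δ : ℝ, 0 < δ ∧ ∃ N₀ : ℕ, 0 < N₀ ∧
    ∀ (V : Type) [Fintype V] [DecidableEq V] (J : V → V → ℝ), (∀ x y, 0 ≤ J x y) → ∀ t : ℝ,
    0 ≤ t → ∀ B : Finset V, N₀ ≤ B.card → (∀ x ∈ B, ∀ y ∈ B, NN J t (swap x y) ≤ δ) →
    |stirExp J t (fun g => f (fun i => top (bfrac B g) i)) - pdm f| ≤ ε := by
  classical
  have hC0 : 0 ≤ C := (abs_nonneg _).trans (hC (fun _ => 0))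
  obtain ⟨Λ, h, hΛ, hhc, hhC, hhL, hfh⟩ := lip_approx m f hfc C hC (ε / 4) (by positivity)
  have h1 := Pool.Agent.TH268.PD.Unif.lim_um pdl hhc hhC
  rw [Metric.tendsto_atTop] at h1
  obtain ⟨k₀, hk₀⟩ := h1 (ε / 8) (by positivity)
  obtain ⟨k₁, hk₁⟩ := exists_nat_gt ((8 * (Λ + 1) / ε) ^ 2)
  obtain ⟨k, hk⟩ : ∃ k, k = max (max k₀ k₁) 1 := ⟨_, rfl⟩
  have hk1 : 1 ≤ k := by rw [hk]; exact le_max_right _ _
  have hkk0 : k₀ ≤ k := by rw [hk]; exact (le_max_left _ _).trans (le_max_left _ _)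
  have hkk1 : k₁ ≤ k := by rw [hk]; exact (le_max_right _ _).trans (le_max_left _ _)
  have hkR : (1 : ℝ) ≤ k := by exact_mod_cast hk1
  have hsq : 0 < Real.sqrt k := Real.sqrt_pos.2 (by linarith)
  have e1 : Λ / Real.sqrt k ≤ ε / 8 := by
    have h2 : 8 * (Λ + 1) / ε ≤ Real.sqrt k := by
      apply Real.le_sqrt_of_sq_le
      have : (k₁ : ℝ) ≤ k := by exact_mod_cast hkk1
      linarith
    rw [div_le_iff₀ hε] at h2
    rw [div_le_iff₀ hsq]
    nlinarith
  have e2 : |um k h - pdm h| ≤ ε / 8 := by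
    have := hk₀ k hkk0
    rw [Real.dist_eq] at this
    exact this.le
  obtain ⟨N, hN⟩ := exists_nat_gt (16 * (C * k ^ 2) / ε)
  refine ⟨ε / (8 * (k * (C + 1))), by positivity, N + 1, by omega, ?_⟩
  intro V _ _ J hJ t ht B hB hη
  have hB0 : 0 < B.card := by omega
  have hBR : (0 : ℝ) < B.card := by exact_mod_cast hB0
  have hNB : (N : ℝ) ≤ B.card := by
    have : N ≤ B.card := by omega
    exact_mod_cast this
  have e3 := set_mean2 hJ ht B k (by omega) hB0 (ε / (8 * (k * (C + 1)))) (by positivity) hη m h C Λ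
    hΛ hhC hhL
  have e4 : 2 * (C * (k ^ 2 / B.card)) ≤ ε / 8 := by
    have h2 : 16 * (C * k ^ 2) ≤ ε * B.card := by
      rw [div_lt_iff₀ hε] at hN
      nlinarith
    have h3 : 2 * (C * ((k : ℝ) ^ 2 / B.card)) = 2 * (C * k ^ 2) / B.card := by ring
    rw [h3, div_le_iff₀ hBR]
    linarith
  have e5 : k * (C * (ε / (8 * (k * (C + 1))))) ≤ ε / 8 := by
    have h2 : k * (C * (ε / (8 * (k * (C + 1))))) = ε / 8 * (C / (C + 1)) := by
      have : (k : ℝ) ≠ 0 := by positivity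
      field_simp
    rw [h2]
    refine mul_le_of_le_one_right (by positivity) ?_
    rw [div_le_one (by positivity)]
    linarith
  have e6 : |stirExp J t (fun g => f (fun i => top (bfrac B g) i)) -
      ∑ g, stirLaw J t g * h (fun i => top (bfrac B g) i)| ≤ ε / 4 := by
    unfold stirExp
    rw [← Finset.sum_sub_distrib]
    refine (Finset.abs_sum_le_sum_abs _ _).trans ?_
    have h2 : ∀ g : Perm V, |stirLaw J t g * f (fun i => top (bfrac B g) i) -
        stirLaw J t g * h (fun i => top (bfrac B g) i)| ≤ stirLaw J t g * (ε / 4) := by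
      intro g
      rw [← mul_sub, abs_mul, abs_of_nonneg (law_nonneg hJ ht g)]
      have hfin : Finite (Cyc g) := Quotient.finite _
      exact mul_le_mul_of_nonneg_left (hfh _ fun i =>
        ⟨Pool.Agent.TH268.PD.top_nonneg _ (bfrac_nonneg B g) i,
          Pool.Agent.TH268.PD.top_le_one _ (bfrac_nonneg B g) (bfrac_le_one B g) i⟩)
        (law_nonneg hJ ht g)
    refine (Finset.sum_le_sum fun g _ => h2 g).trans (le_of_eq ?_)
    rw [← Finset.sum_mul, law_sum, one_mul]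
  have e7 : |pdm f - pdm h| ≤ ε / 4 := by
    have := pdm_close pdl m f h hfc hhc C hC hhC (ε / 4) hfh 1 zero_le_one le_rfl
    simpa only [one_mul] using this
  rw [abs_le] at e2 e3 e6 e7 ⊢
  constructor <;> linarith [e2.1, e2.2, e3.1, e3.2, e6.1, e6.2, e7.1, e7.2]

end Pool.Agent.Y998.LQ
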